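import Pool.Agent.Helper25.HL.Goals3

/-!
# Project HL, packet LP2: norm of a Hilbert sum
-/

set_option autoImplicit false

noncomputable section

namespace Pool.Agent.Helper86.HL

open Pool.Agent.Helper25.HL

theorem lp2 : S_LP2 := by
  classical
  intro P D x
  have h2 : (2 : ENNReal).toReal = 2 := by norm_num
  refine ⟨?_, ?_, ?_⟩
  · have h := lp.hasSum_norm (p := 2) (by rw [h2]; norm_num) x
    rw [h2] at h
    have e1 : ∀ a : ℝ, a ^ (2 : ℝ) = a ^ 2 := fun a => Real.rpow_two a
    simpa only [e1] using h
  · have h := lp.hasSum_single (p := 2) (by norm_num) x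
    have e : (fun k => emb P D k (x k)) =
        fun k => lp.single (E := fun k => LV (D k)) 2 k (x k) := by
      funext k
      rfl
    rw [e]
    exact h
  · intro k z
    have h := lp.norm_single (p := 2) (E := fun k => LV (D k)) (by norm_num) k z
    exact h

end Pool.Agent.Helper86.HL
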