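import Pool.Agent.Helper25.HL.Goals3

/-!
# Project HL, packet SPL: splitting of a pairing at a cut
-/

set_option autoImplicit false

noncomputable section

namespace Pool.Agent.Helper86.HL

open Pool.Agent.Helper25.HL

section

variable {P : ℕ → ℕ} {D : ∀ k, Lv (P k) (P (k + 1))}

theorem emb_apply (k : ℕ) (z : LV (D k)) :
    emb P D k z = lp.single (E := fun k => LV (D k)) 2 k z := rfl

theorem two_pos : 0 < (2 : ENNReal).toReal := by norm_num

theorem norm_sum_emb (d : XX P D) (s : Finset ℕ) :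
    ‖∑ k ∈ s, emb P D k (d k)‖ = Real.sqrt (∑ k ∈ s, ‖d k‖ ^ 2) := by
  classical
  have h := lp.norm_sum_single (E := fun k => LV (D k)) (p := 2) two_pos (fun k => d k) s
  have h2 : (2 : ENNReal).toReal = 2 := by norm_num
  rw [h2] at h
  simp only [Real.rpow_two] at h
  rw [← h]
  exact (Real.sqrt_sq (norm_nonneg _)).symm

theorem norm_tail (y : XX P D) (n : ℕ) :
    ‖y - ∑ k ∈ Finset.range n, emb P D k (y k)‖ =
      Real.sqrt (∑' k, if n ≤ k then ‖y k‖ ^ 2 else 0) := by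
  classical
  have h := lp.norm_sub_norm_compl_sub_single (E := fun k => LV (D k)) (p := 2) two_pos y
    (Finset.range n)
  have hs := lp.hasSum_norm (p := 2) two_pos y
  have h2 : (2 : ENNReal).toReal = 2 := by norm_num
  rw [h2] at h hs
  simp only [Real.rpow_two] at h hs
  have h3 : HasSum (fun k => if k ∈ Finset.range n then ‖y k‖ ^ 2 else 0)
      (∑ k ∈ Finset.range n, ‖y k‖ ^ 2) := by
    have h4 : HasSum (fun k => if k ∈ Finset.range n then ‖y k‖ ^ 2 else 0)
        (∑ b ∈ Finset.range n, (if b ∈ Finset.range n then ‖y b‖ ^ 2 else 0)) :=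
      hasSum_sum_of_ne_finset_zero (fun b hb => if_neg hb)
    have h5 : ∑ b ∈ Finset.range n, (if b ∈ Finset.range n then ‖y b‖ ^ 2 else 0) =
        ∑ k ∈ Finset.range n, ‖y k‖ ^ 2 :=
      Finset.sum_congr rfl fun b hb => if_pos hb
    rw [h5] at h4
    exact h4
  have h6 := (hs.sub h3).tsum_eq
  have h7 : (fun k => ‖y k‖ ^ 2 - if k ∈ Finset.range n then ‖y k‖ ^ 2 else 0) =
      fun k => if n ≤ k then ‖y k‖ ^ 2 else 0 := by
    funext k
    by_cases hk : n ≤ k
    · rw [if_neg (fun h => absurd (Finset.mem_range.mp h) (not_lt.mpr hk)), if_pos hk, sub_zero]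
    · rw [if_pos (Finset.mem_range.mpr (not_le.mp hk)), if_neg hk, sub_self]
  rw [h7] at h6
  rw [h6, ← h, sub_sub_cancel]
  exact (Real.sqrt_sq (norm_nonneg _)).symm

end

theorem spl : S_SPL := by
  classical
  intro P D f c x y
  set z1 : XX P D := ∑ k ∈ Finset.range c, emb P D k ((x - y) k) with hz1
  set z2 : XX P D := y - ∑ k ∈ Finset.range (c + 2), emb P D k (y k) with hz2
  have e1 : Qb P D (c + 1) x = ∑ k ∈ Finset.range (c + 1), emb P D k (x k) := by
    unfold Qb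
    rw [ContinuousLinearMap.sum_apply]
    rfl
  have e2 : ∀ k, emb P D k (x k) = emb P D k ((x - y) k) + emb P D k (y k) := by
    intro k
    rw [← map_add]
    congr 1
    rw [lp.coeFn_sub, Pi.sub_apply, sub_add_cancel]
  have e3 : Qb P D (c + 1) x - y =
      z1 + emb P D c ((x - y) c) - emb P D (c + 1) (y (c + 1)) - z2 := by
    rw [e1, Finset.sum_congr rfl (fun k _ => e2 k), Finset.sum_add_distrib,
      Finset.sum_range_succ (fun k => emb P D k ((x - y) k)), hz2,
      Finset.sum_range_succ (fun k => emb P D k (y k)) (c + 1), hz1]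
    abel
  have n1 : ‖z1‖ = Real.sqrt (∑ k ∈ Finset.range c, ‖(x - y) k‖ ^ 2) := norm_sum_emb _ _
  have n2 : ‖z2‖ = Real.sqrt (∑' k, if c + 1 < k then ‖y k‖ ^ 2 else 0) := norm_tail y (c + 2)
  have b1 : ‖f z1‖ ≤ ‖f‖ * ‖z1‖ := f.le_opNorm z1
  have b2 : ‖f z2‖ ≤ ‖f‖ * ‖z2‖ := f.le_opNorm z2
  have b3 : ‖f (emb P D c ((x - y) c))‖ ≤ ‖f.comp (emb P D c)‖ * ‖(x - y) c‖ :=
    (f.comp (emb P D c)).le_opNorm _
  have b4 : ‖f (emb P D (c + 1) (y (c + 1)))‖ ≤ ‖f.comp (emb P D (c + 1))‖ * ‖y (c + 1)‖ :=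
    (f.comp (emb P D (c + 1))).le_opNorm _
  rw [e3, map_sub, map_sub, map_add, ← n1, ← n2]
  have t1 := norm_sub_le (f z1 + f (emb P D c ((x - y) c)) - f (emb P D (c + 1) (y (c + 1))))
    (f z2)
  have t2 := norm_sub_le (f z1 + f (emb P D c ((x - y) c))) (f (emb P D (c + 1) (y (c + 1))))
  have t3 := norm_add_le (f z1) (f (emb P D c ((x - y) c)))
  linarith

end Pool.Agent.Helper86.HL
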