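import Pool.Agent.Helper25.HL.Goals1

/-!
# Project HL, packet ADJ: the adjoint of a bounded synthesis operator
-/

set_option autoImplicit false

noncomputable section

namespace Pool.Agent.Helper86.HL

open Pool.Agent.Helper25.HL

theorem norm_ip_sq_le {κ : Type} [Fintype κ] (y x : κ → ℂ) :
    ‖ip y x‖ ^ 2 ≤ Pool.Agent.Helper25.HL.sq y * Pool.Agent.Helper25.HL.sq x := by
  have h1 : ‖ip y x‖ ≤ ∑ m, ‖y m‖ * ‖x m‖ := by
    unfold ip
    refine (norm_sum_le _ _).trans (le_of_eq ?_)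
    refine Finset.sum_congr rfl fun m _ => ?_
    rw [norm_mul, RCLike.norm_conj]
  calc ‖ip y x‖ ^ 2 ≤ (∑ m, ‖y m‖ * ‖x m‖) ^ 2 := by
        gcongr
    _ ≤ (∑ m, ‖y m‖ ^ 2) * ∑ m, ‖x m‖ ^ 2 := Finset.sum_mul_sq_le_sq_mul_sq _ _ _
    _ = Pool.Agent.Helper25.HL.sq y * Pool.Agent.Helper25.HL.sq x := rfl

theorem adj : S_ADJ := by
  intro κ ι _ _ t c hc h x
  set v : ι → ℂ := fun j => ip (t j) x with hv
  set A : ℝ := ∑ j, ‖v j‖ ^ 2 with hA
  have hA0 : 0 ≤ A := Finset.sum_nonneg fun j _ => by positivity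
  have h1 : ip (∑ j, v j • t j) x = (A : ℂ) := by
    unfold ip
    have e1 : ∀ m, (starRingEnd ℂ) ((∑ j, v j • t j) m) * x m =
        ∑ j, (starRingEnd ℂ) (v j) * ((starRingEnd ℂ) (t j m) * x m) := by
      intro m
      rw [Finset.sum_apply, map_sum, Finset.sum_mul]
      refine Finset.sum_congr rfl fun j _ => ?_
      rw [Pi.smul_apply, smul_eq_mul, map_mul, mul_assoc]
    rw [Finset.sum_congr rfl fun m _ => e1 m, Finset.sum_comm]
    have e2 : ∀ j, ∑ m, (starRingEnd ℂ) (v j) * ((starRingEnd ℂ) (t j m) * x m) =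
        ((‖v j‖ ^ 2 : ℝ) : ℂ) := by
      intro j
      rw [← Finset.mul_sum]
      change (starRingEnd ℂ) (v j) * v j = _
      rw [mul_comm, Complex.mul_conj, Complex.normSq_eq_norm_sq]
    rw [Finset.sum_congr rfl fun j _ => e2 j, hA, Complex.ofReal_sum]
  have h2 := norm_ip_sq_le (∑ j, v j • t j) x
  rw [h1, Complex.norm_real, Real.norm_of_nonneg hA0] at h2
  have h3 : 0 ≤ Pool.Agent.Helper25.HL.sq x := Finset.sum_nonneg fun j _ => by positivity
  have h4 : A ^ 2 ≤ c * A * Pool.Agent.Helper25.HL.sq x := h2.trans (mul_le_mul_of_nonneg_right (h v) h3)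
  change A ≤ c * Pool.Agent.Helper25.HL.sq x
  rcases hA0.eq_or_lt with h5 | h5
  · rw [← h5]
    exact mul_nonneg hc h3
  · have h6 : A * A ≤ A * (c * Pool.Agent.Helper25.HL.sq x) := by nlinarith
    exact le_of_mul_le_mul_left h6 h5

end Pool.Agent.Helper86.HL
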